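import Pool.Agent.Lib.MP_0fc16c_co.Draw
import Pool.Agent.Lib.MP_0fc16c_co.Disc
import Pool.Agent.Lib.MP_0fc16c_co.Gallai5

set_option autoImplicit false

namespace Pool.Agent.Results.MP_0fc16c_co.Ten

open Pool.Agent.Lib.MP_0fc16c_co

/-- Every 3-connected planar graph that is not complete is degree-truncated 10-choosable.
Planar means that `G` has a drawing in the plane: distinct points `p v` for the vertices and a
simple arc `γ u v` from `p u` to `p v` for every edge, whose inner points are not vertices and lie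
on no arc of another edge. -/
theorem result {V C : Type*} [Fintype V] (G : SimpleGraph V)
    (h4 : 4 ≤ Fintype.card V)
    (h3 : ∀ S : Finset V, S.card ≤ 2 → (G.induce (S : Set V)ᶜ).Connected)
    (hp : ∃ (p : V → ℝ × ℝ) (γ : V → V → unitInterval → ℝ × ℝ), Function.Injective p ∧
      (∀ u v, G.Adj u v → Continuous (γ u v) ∧ Function.Injective (γ u v) ∧
        γ u v 0 = p u ∧ γ u v 1 = p v ∧ ∀ t w, γ u v t = p w → t = 0 ∨ t = 1) ∧
      ∀ u v x y, G.Adj u v → G.Adj x y → s(u, v) ≠ s(x, y) →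
        ∀ a b, γ u v a = γ x y b → (a = 0 ∨ a = 1) ∧ (b = 0 ∨ b = 1))
    (hne : G ≠ ⊤) (L : V → Set C)
    (hL : ∀ v, min 10 (G.neighborSet v).encard ≤ (L v).encard) :
    ∃ c : V → C, (∀ v, c v ∈ L v) ∧ ∀ u v, G.Adj u v → c u ≠ c v := by
  classical
  obtain ⟨p, γ, p1, p2, p3⟩ := hp
  have key : ∀ v, ∃ A : Finset C, (A : Set C) ⊆ L v ∧
      min 10 (G.neighborSet v).ncard ≤ A.card := fun v => by
    have e : ((min 10 (G.neighborSet v).ncard : ℕ) : ℕ∞) ≤ (L v).encard := by
      refine le_trans (le_min ?_ ?_) (hL v)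
      · exact_mod_cast min_le_left _ _
      · rw [← (Set.toFinite (G.neighborSet v)).cast_ncard_eq]; exact_mod_cast min_le_right _ _
    obtain ⟨t, h1, h2⟩ := Set.exists_subset_encard_eq e
    have hf : t.Finite := Set.finite_of_encard_eq_coe h2
    refine ⟨hf.toFinset, by simpa using h1, ?_⟩
    rw [← hf.cast_ncard_eq, Nat.cast_inj, Set.ncard_eq_toFinset_card t hf] at h2
    exact h2.ge
  choose A hA hA' using key
  obtain ⟨φ, h1, h2⟩ := final_of_side (C := C) disc_colour
    (fun _ _ _ h h5 K ψ hx => W4 h h5 K ψ hx)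
    (fun _ _ _ _ h hs => ⟨simple_weak h hs, simple_strong h hs⟩)
    (fun _ _ h h2 h3 hne φ => brooks3 h h2 h3 hne φ) G h4 h3 (ht_subd G p γ p1 p2 p3) hne
    A hA'
  exact ⟨φ, fun v => hA v (h1 v), h2⟩

end Pool.Agent.Results.MP_0fc16c_co.Ten
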